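import Pool.Agent.Run7.h240.UB.E

set_option autoImplicit false

open MeasureTheory Set

/-!
Subcritical `U`-bootstrap percolation on `Z^2`: the mean occupation time of the origin at the
critical probability is infinite whenever `p_c < 1`.
-/

namespace Pool.Agent.Results.MP_28b826_pr.MeanOccupationTime

noncomputable section

/-- An update family: a finite nonempty collection of finite subsets of `Z^2 \ {0}`. -/
def IsUpdateFamily (U : Finset (Finset (ℤ × ℤ))) : Prop :=
  U.Nonempty ∧ ∀ X ∈ U, (0 : ℤ × ℤ) ∉ X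

/-- One step: `x` becomes infected if `x + X` is infected for some `X` in `U`. -/
def step (U : Finset (Finset (ℤ × ℤ))) (A : Set (ℤ × ℤ)) : Set (ℤ × ℤ) :=
  A ∪ {x | ∃ X ∈ U, ∀ y ∈ X, x + y ∈ A}

/-- The set `A_t`. -/
def infected (U : Finset (Finset (ℤ × ℤ))) (A : Set (ℤ × ℤ)) (t : ℕ) : Set (ℤ × ℤ) := (step U)^[t] A

/-- The closure `[A]`. -/
def closure (U : Finset (Finset (ℤ × ℤ))) (A : Set (ℤ × ℤ)) : Set (ℤ × ℤ) := ⋃ t : ℕ, infected U A t

/-- The half-plane `H_u` of the unit vector `u = (cos θ, sin θ)`. -/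
def halfPlane (θ : ℝ) : Set (ℤ × ℤ) := {x | (x.1 : ℝ) * Real.cos θ + (x.2 : ℝ) * Real.sin θ < 0}

/-- The angles of the stable directions. -/
def stable (U : Finset (Finset (ℤ × ℤ))) : Set ℝ := {θ | closure U (halfPlane θ) = halfPlane θ}

/-- The family is subcritical: the stable set has positive arc-length measure in every open
semicircle. -/
def Subcritical (U : Finset (Finset (ℤ × ℤ))) : Prop :=
  ∀ a : ℝ, 0 < volume (stable U ∩ Ioo a (a + Real.pi))

/-- Product measure: every site of `Z^2` is in `A` (value `true`) with probability `p`,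
independently. -/
def P (p : unitInterval) : Measure (ℤ × ℤ → Bool) :=
  Measure.infinitePi (fun _ : ℤ × ℤ =>
    ENNReal.ofReal (p : ℝ) • Measure.dirac true + ENNReal.ofReal (1 - (p : ℝ)) • Measure.dirac false)

/-- The initial set `A`. -/
def initial (ω : ℤ × ℤ → Bool) : Set (ℤ × ℤ) := {x | ω x = true}

/-- The critical probability, the infimum of the `p` with `P_p([A] = Z^2) = 1`. -/
def pc (U : Finset (Finset (ℤ × ℤ))) : unitInterval :=
  sInf {p | P p {ω | closure U (initial ω) = univ} = 1}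

/-- The occupation time `T` of the origin (`∞` if it is never occupied). -/
def T (U : Finset (Finset (ℤ × ℤ))) (ω : ℤ × ℤ → Bool) : ENNReal :=
  ⨅ (t : ℕ) (_ : (0 : ℤ × ℤ) ∈ infected U (initial ω) t), (t : ENNReal)

/-- The expectation `E_p T`. -/
def meanT (U : Finset (Finset (ℤ × ℤ))) (p : unitInterval) : ENNReal := ∫⁻ ω, T U ω ∂(P p)

/-- Some nonempty finite set stays healthy by itself (even if all other sites are infected). -/
def FiniteStable (U : Finset (Finset (ℤ × ℤ))) : Prop :=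
  ∃ F : Finset (ℤ × ℤ), F.Nonempty ∧ ∀ x ∈ F, ∀ X ∈ U, ∃ y ∈ X, x + y ∈ F

lemma nonempty_of_sub {U : Finset (Finset (ℤ × ℤ))} (hs : Subcritical U) :
    ∀ X ∈ U, X.Nonempty := by
  intro X hX
  by_contra hc
  have hX0 : X = ∅ := Finset.not_nonempty_iff_eq_empty.1 hc
  have h1 : stable U = ∅ := by
    ext θ
    simp only [mem_empty_iff_false, iff_false]
    intro hθ
    have h2 : closure U (halfPlane θ) = halfPlane θ := hθ
    have h3 : (0 : ℤ × ℤ) ∈ closure U (halfPlane θ) := by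
      refine mem_iUnion.2 ⟨1, Or.inr ⟨X, hX, fun y hy => ?_⟩⟩
      rw [hX0] at hy
      exact absurd hy (Finset.notMem_empty y)
    rw [h2] at h3
    have h4 : (((0 : ℤ × ℤ).1 : ℤ) : ℝ) * Real.cos θ + (((0 : ℤ × ℤ).2 : ℤ) : ℝ) * Real.sin θ < 0 := h3
    simp at h4
  have h5 := hs 0
  rw [h1, empty_inter, measure_empty] at h5
  exact absurd h5 (lt_irrefl _)

/-- **Occupation time at criticality.** Let `U` be a subcritical update family. If some nonempty
finite set stays healthy by itself then `p_c = 1` and `T = 0` almost surely at `p_c`. Otherwise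
`p_c < 1` and `E_{p_c} T = ∞`; moreover there is a parameter `p_t` with `p_c ≤ p_t < 1` such that
`P_p(T > n) ≥ ε / n` for all `p ≤ p_t` and `n ≥ 1` with one `ε > 0`, such that the tail of `T` is
stretched-exponential for every `p > p_t`, and such that `E_p T < ∞` exactly for `p > p_t`. In
particular `E_{p_c} T < ∞` if and only if `p_c = 1`. -/
theorem result (U : Finset (Finset (ℤ × ℤ))) (_hU : IsUpdateFamily U) (hs : Subcritical U) :
    (FiniteStable U → pc U = 1 ∧ meanT U (pc U) = 0) ∧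
    (¬ FiniteStable U → pc U < 1 ∧ meanT U (pc U) = ⊤ ∧
      ∃ (pt : unitInterval) (ε : ℝ), 0 < ε ∧ pc U ≤ pt ∧ pt < 1 ∧
        (∀ p, p ≤ pt → ∀ n : ℕ, 1 ≤ n → ε / n ≤ (P p).real {ω | (n : ENNReal) < T U ω}) ∧
        (∀ p, pt < p → ∃ C : ℝ, 0 < C ∧ ∀ n : ℕ, (P p).real {ω | (n : ENNReal) < T U ω} ≤
          C * Real.exp (-((n : ℝ) ^ (1 / 8 : ℝ) / C))) ∧
        ∀ p, meanT U p < ⊤ ↔ pt < p) ∧
    (meanT U (pc U) < ⊤ ↔ pc U = 1) := by
  have h1 : FiniteStable U → pc U = 1 ∧ meanT U (pc U) = 0 := fun h =>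
    Pool.Agent.Run7.h240.UB.case_fs (U := U) (not_not.2 h)
  have h2 : ¬ FiniteStable U → pc U < 1 ∧ meanT U (pc U) = ⊤ ∧
      ∃ (pt : unitInterval) (ε : ℝ), 0 < ε ∧ pc U ≤ pt ∧ pt < 1 ∧
        (∀ p, p ≤ pt → ∀ n : ℕ, 1 ≤ n → ε / n ≤ (P p).real {ω | (n : ENNReal) < T U ω}) ∧
        (∀ p, pt < p → ∃ C : ℝ, 0 < C ∧ ∀ n : ℕ, (P p).real {ω | (n : ENNReal) < T U ω} ≤
          C * Real.exp (-((n : ℝ) ^ (1 / 8 : ℝ) / C))) ∧
        ∀ p, meanT U p < ⊤ ↔ pt < p := fun h =>
    Pool.Agent.Run7.h240.UB.main (U := U) h (nonempty_of_sub hs)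
  refine ⟨h1, h2, ?_⟩
  by_cases h : FiniteStable U
  · obtain ⟨h3, h4⟩ := h1 h
    rw [h4]
    exact ⟨fun _ => h3, fun _ => ENNReal.zero_lt_top⟩
  · obtain ⟨h3, h4, _⟩ := h2 h
    rw [h4]
    exact ⟨fun h5 => absurd h5 (lt_irrefl _), fun h5 => absurd h5 h3.ne⟩

end

end Pool.Agent.Results.MP_28b826_pr.MeanOccupationTime
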